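import Mathlib

/-!
# An `i`-graph without a well-covered seed graph

The cube graph `Q₃` minus one vertex is the `i`-graph of the claw with every edge subdivided once,
but it is not the `i`-graph of any well-covered graph.
-/

set_option autoImplicit false

namespace Pool.Agent.Results.MP_88e7bb_co.CubeMinusVertex

section Defs

variable {V : Type} (G : SimpleGraph V)

/-- `S` is an independent dominating set of `G`. -/
def IsIndepDom (S : Finset V) : Prop :=
  (∀ x ∈ S, ∀ y ∈ S, ¬ G.Adj x y) ∧ ∀ x, x ∉ S → ∃ y ∈ S, G.Adj x y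

/-- `S` is an `i`-set of `G`: an independent dominating set of the least size. -/
def IsISet (S : Finset V) : Prop :=
  IsIndepDom G S ∧ ∀ T : Finset V, IsIndepDom G T → S.card ≤ T.card

/-- `G` is well-covered: all independent dominating sets (that is, all maximal independent sets)
have the same size. -/
def WellCovered : Prop :=
  ∀ S T : Finset V, IsIndepDom G S → IsIndepDom G T → S.card = T.card

/-- `Y` arises from `X` by sliding one vertex along an edge: `Y = (X \ {u}) ∪ {v}` for some
`u ∈ X`, `v ∈ Y` with `u v` an edge of `G`. -/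
def Slide [DecidableEq V] (X Y : Finset V) : Prop :=
  ∃ u ∈ X, ∃ v ∈ Y, G.Adj u v ∧ Y = insert v (X.erase u)

theorem slide_symm [DecidableEq V] {X Y : Finset V} (hX : ∀ x ∈ X, ∀ y ∈ X, ¬ G.Adj x y)
    (h : Slide G X Y) : Slide G Y X := by
  obtain ⟨u, hu, v, hv, huv, e⟩ := h
  refine ⟨v, hv, u, hu, huv.symm, ?_⟩
  have hvX : v ∉ X := fun h => hX u hu v h huv
  rw [e]
  ext a
  simp only [Finset.mem_insert, Finset.mem_erase]
  constructor
  · intro ha
    by_cases hau : a = u
    · exact Or.inl hau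
    · exact Or.inr ⟨fun h => hvX (h ▸ ha), Or.inr ⟨hau, ha⟩⟩
  · rintro (rfl | ⟨h1, h2 | h2⟩)
    · exact hu
    · exact absurd h2 h1
    · exact h2.2

/-- The `i`-graph of `G`: its vertices are the `i`-sets of `G`, adjacent when one arises from the
other by sliding one vertex along an edge of `G`. -/
def iGraph [DecidableEq V] : SimpleGraph {S : Finset V // IsISet G S} where
  Adj X Y := Slide G X.1 Y.1
  symm := ⟨fun X Y h => slide_symm G X.2.1.1 h⟩
  loopless := ⟨fun X h => by
    obtain ⟨u, hu, v, hv, huv, -⟩ := h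
    exact X.2.1.1 u hu v hv huv⟩

end Defs

/-- The cube graph minus one vertex: `0` is the vertex opposite to the missing vertex, `1, 2, 3` are
its neighbours, `4, 5, 6` are the neighbours of the missing vertex. -/
def cubeAdj (a b : Fin 7) : Bool :=
  [(0, 1), (0, 2), (0, 3), (1, 4), (2, 4), (1, 5), (3, 5), (2, 6), (3, 6)].any
    (fun p => ((p.1 : Fin 7) = a && (p.2 : Fin 7) = b) || ((p.1 : Fin 7) = b && (p.2 : Fin 7) = a))

/-- `Q₃` minus a vertex. -/
def cubeMinus : SimpleGraph (Fin 7) where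
  Adj a b := cubeAdj a b = true
  symm := ⟨by decide⟩
  loopless := ⟨by decide⟩

/-- The claw with subdivided edges: centre `0`, its neighbours `1, 2, 3`, and the leaves `4, 5, 6`. -/
def clawAdj (a b : Fin 7) : Bool :=
  [(0, 1), (0, 2), (0, 3), (1, 4), (2, 5), (3, 6)].any
    (fun p => ((p.1 : Fin 7) = a && (p.2 : Fin 7) = b) || ((p.1 : Fin 7) = b && (p.2 : Fin 7) = a))

/-- The subdivided claw. -/
def subdividedClaw : SimpleGraph (Fin 7) where
  Adj a b := clawAdj a b = true
  symm := ⟨by decide⟩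
  loopless := ⟨by decide⟩

instance : DecidableRel subdividedClaw.Adj := fun a b =>
  inferInstanceAs (Decidable (clawAdj a b = true))

instance : DecidableRel cubeMinus.Adj := fun a b =>
  inferInstanceAs (Decidable (cubeAdj a b = true))

section Upper

variable {V : Type} [Fintype V] [DecidableEq V] (G : SimpleGraph V)

/-- Every independent set lies in an independent dominating set. -/
theorem exists_extend (U : Finset V) (hU : ∀ x ∈ U, ∀ y ∈ U, ¬ G.Adj x y) :
    ∃ T : Finset V, U ⊆ T ∧ IsIndepDom G T := by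
  classical
  obtain ⟨T, hT, hmax⟩ := Finset.exists_max_image
    (Finset.univ.filter (fun T : Finset V => U ⊆ T ∧ ∀ x ∈ T, ∀ y ∈ T, ¬ G.Adj x y))
    Finset.card ⟨U, by simpa using hU⟩
  rw [Finset.mem_filter] at hT
  refine ⟨T, hT.2.1, hT.2.2, fun x hx => ?_⟩
  by_contra hcon
  push Not at hcon
  have h := hmax (insert x T) (by
    rw [Finset.mem_filter]
    refine ⟨Finset.mem_univ _, hT.2.1.trans (Finset.subset_insert _ _), ?_⟩
    intro a ha b hb hab
    rw [Finset.mem_insert] at ha hb
    rcases ha with rfl | ha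
    · rcases hb with rfl | hb
      · exact G.loopless.irrefl _ hab
      · exact hcon b hb hab
    · rcases hb with rfl | hb
      · exact hcon a ha hab.symm
      · exact hT.2.2 a ha b hb hab)
  rw [Finset.card_insert_of_notMem hx] at h
  omega

/-- In a well-covered graph an independent set is not larger than an independent dominating set. -/
theorem card_le_of_indep (hG : WellCovered G) {S U : Finset V} (hS : IsIndepDom G S)
    (hU : ∀ x ∈ U, ∀ y ∈ U, ¬ G.Adj x y) : U.card ≤ S.card := by
  obtain ⟨T, h1, h2⟩ := exists_extend G U hU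
  rw [hG S T hS h2]
  exact Finset.card_le_card h1

/-- In a well-covered graph an independent set as large as an independent dominating set is an
`i`-set. -/
theorem iset_of_card (hG : WellCovered G) {S U : Finset V} (hS : IsIndepDom G S)
    (hU : ∀ x ∈ U, ∀ y ∈ U, ¬ G.Adj x y) (hc : U.card = S.card) : IsISet G U := by
  obtain ⟨T, h1, h2⟩ := exists_extend G U hU
  have h3 : U = T := Finset.eq_of_subset_of_card_le h1 (by rw [hc, hG S T hS h2])
  subst h3
  exact ⟨h2, fun W hW => le_of_eq (hG _ _ h2 hW)⟩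

/-- The structure of a square `S₀, S₁, S₄, S₂` of the `i`-graph of a well-covered graph. -/
theorem square (hG : WellCovered G) {S0 S1 S2 S4 : Finset V} (h0 : IsIndepDom G S0)
    (h1 : IsIndepDom G S1) (h2 : IsIndepDom G S2) (h4 : IsIndepDom G S4) {x1 y1 x2 y2 : V}
    (hx1 : x1 ∈ S0) (hx2 : x2 ∈ S0) (ha1 : G.Adj x1 y1) (ha2 : G.Adj x2 y2)
    (e1 : S1 = insert y1 (S0.erase x1)) (e2 : S2 = insert y2 (S0.erase x2)) (hne : S1 ≠ S2)
    (hns : ¬ Slide G S1 S2) (h14 : Slide G S1 S4) (h24 : Slide G S2 S4) (h04 : S4 ≠ S0) :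
    x1 ≠ x2 ∧ y1 ≠ y2 ∧ ¬ G.Adj y1 y2 ∧ S4 = insert y2 (S1.erase x2) := by
  have hy1 : y1 ∉ S0 := fun h => h0.1 x1 hx1 y1 h ha1
  have hy2 : y2 ∉ S0 := fun h => h0.1 x2 hx2 y2 h ha2
  have hy1S : y1 ∈ S1 := by rw [e1]; exact Finset.mem_insert_self _ _
  have hy2S : y2 ∈ S2 := by rw [e2]; exact Finset.mem_insert_self _ _
  have m1 : ∀ a, a ∈ S0 → a ≠ x1 → a ∈ S1 := fun a ha hn => by
    rw [e1]; exact Finset.mem_insert_of_mem (Finset.mem_erase.2 ⟨hn, ha⟩)
  have m2 : ∀ a, a ∈ S0 → a ≠ x2 → a ∈ S2 := fun a ha hn => by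
    rw [e2]; exact Finset.mem_insert_of_mem (Finset.mem_erase.2 ⟨hn, ha⟩)
  have k1 : ∀ a, a ∈ S1 → a = y1 ∨ (a ≠ x1 ∧ a ∈ S0) := fun a ha => by
    rw [e1] at ha
    simpa using ha
  have k2 : ∀ a, a ∈ S2 → a = y2 ∨ (a ≠ x2 ∧ a ∈ S0) := fun a ha => by
    rw [e2] at ha
    simpa using ha
  -- `x1 ≠ x2`
  have hx : x1 ≠ x2 := by
    intro hxx
    subst hxx
    have hyy : y1 ≠ y2 := by
      rintro rfl
      exact hne (e1.trans e2.symm)
    have hnadj : ¬ G.Adj y1 y2 := by
      intro hadj
      refine hns ⟨y1, hy1S, y2, hy2S, hadj, ?_⟩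
      rw [e1, e2]
      ext a
      simp only [Finset.mem_insert, Finset.mem_erase]
      constructor
      · rintro (h | h)
        · exact Or.inl h
        · exact Or.inr ⟨fun h' => hy1 (h' ▸ h.2), Or.inr h⟩
      · rintro (h | ⟨h, h' | h'⟩)
        · exact Or.inl h
        · exact absurd h' h
        · exact Or.inr h'
    have hle := card_le_of_indep G hG (U := insert y2 S1) h0 (by
      intro a ha b hb hab
      rw [Finset.mem_insert] at ha hb
      have key : ∀ c ∈ S1, ¬ G.Adj y2 c := by
        intro c hc hadj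
        rcases k1 c hc with rfl | ⟨hc1, hc2⟩
        · exact hnadj hadj.symm
        · exact h2.1 y2 hy2S c (m2 c hc2 hc1) hadj
      rcases ha with rfl | ha
      · rcases hb with rfl | hb
        · exact G.loopless.irrefl _ hab
        · exact key b hb hab
      · rcases hb with rfl | hb
        · exact key a ha hab.symm
        · exact h1.1 a ha b hb hab)
    have hy2' : y2 ∉ S1 := by
      intro h
      rcases k1 y2 h with h | h
      · exact hyy h.symm
      · exact hy2 h.2
    rw [Finset.card_insert_of_notMem hy2', hG S1 S0 h1 h0] at hle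
    omega
  -- `y1 ≠ y2`
  have hy : y1 ≠ y2 := by
    rintro rfl
    exact h1.1 x2 (m1 x2 hx2 hx.symm) y1 hy1S ha2
  obtain ⟨a, ha, b, hb, hab, e4⟩ := h14
  obtain ⟨c, hc, d, hd, hcd, e4'⟩ := h24
  have q1 : ∀ t, t ∈ S1 → t ≠ a → t ∈ S4 := fun t ht hn => by
    rw [e4]; exact Finset.mem_insert_of_mem (Finset.mem_erase.2 ⟨hn, ht⟩)
  have q2 : ∀ t, t ∈ S2 → t ≠ c → t ∈ S4 := fun t ht hn => by
    rw [e4']; exact Finset.mem_insert_of_mem (Finset.mem_erase.2 ⟨hn, ht⟩)
  have r1 : ∀ t, t ∈ S4 → t = b ∨ (t ≠ a ∧ t ∈ S1) := fun t ht => by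
    rw [e4] at ht
    simpa using ht
  have r2 : ∀ t, t ∈ S4 → t = d ∨ (t ≠ c ∧ t ∈ S2) := fun t ht => by
    rw [e4'] at ht
    simpa using ht
  have hy2n1 : y2 ∉ S1 := by
    intro h
    rcases k1 y2 h with h | h
    · exact hy h.symm
    · exact hy2 h.2
  have hy1n2 : y1 ∉ S2 := by
    intro h
    rcases k2 y1 h with h | h
    · exact hy h
    · exact hy1 h.2
  have hx1n1 : x1 ∉ S1 := by
    intro h
    rcases k1 x1 h with h | h
    · exact hy1 (h ▸ hx1)
    · exact h.1 rfl
  have hx2n2 : x2 ∉ S2 := by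
    intro h
    rcases k2 x2 h with h | h
    · exact hy2 (h ▸ hx2)
    · exact h.1 rfl
  have hx2S1 : x2 ∈ S1 := m1 x2 hx2 hx.symm
  have hx1S2 : x1 ∈ S2 := m2 x1 hx1 hx
  have hboth : y1 ∈ S4 ∧ y2 ∈ S4 := by
    by_cases c1 : y1 ∈ S4
    · by_cases c2 : y2 ∈ S4
      · exact ⟨c1, c2⟩
      · exfalso
        have hcy : c = y2 := by
          by_contra hne'
          exact c2 (q2 y2 hy2S (fun h => hne' h.symm))
        subst hcy
        have hdy : y1 = d := by
          rcases r2 y1 c1 with h | h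
          · exact h
          · exact absurd h.2 hy1n2
        subst hdy
        exact h4.1 x1 (q2 x1 hx1S2 (fun h => hy2 (h ▸ hx1))) y1 c1 ha1
    · exfalso
      have hay : a = y1 := by
        by_contra hne'
        exact c1 (q1 y1 hy1S (fun h => hne' h.symm))
      subst hay
      by_cases c2 : y2 ∈ S4
      · exact h4.1 x2 (q1 x2 hx2S1 (fun h => hy1 (h ▸ hx2))) y2 c2 ha2
      · have hcy : c = y2 := by
          by_contra hne'
          exact c2 (q2 y2 hy2S (fun h => hne' h.symm))
        subst hcy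
        apply h04
        have hx1S4 : x1 ∈ S4 := q2 x1 hx1S2 (fun h => hy2 (h ▸ hx1))
        have hbx : x1 = b := by
          rcases r1 x1 hx1S4 with h | h
          · exact h
          · exact absurd h.2 hx1n1
        ext t
        constructor
        · intro ht
          rcases r1 t ht with h | h
          · rw [h, ← hbx]; exact hx1
          · rcases k1 t h.2 with h' | h'
            · exact absurd h' h.1
            · exact h'.2
        · intro ht
          by_cases htx : t = x1
          · rw [htx]; exact hx1S4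
          · exact q1 t (m1 t ht htx) (fun h => hy1 (h ▸ ht))
  have hb2 : y2 = b := by
    rcases r1 y2 hboth.2 with h | h
    · exact h
    · exact absurd h.2 hy2n1
  refine ⟨hx, hy, h4.1 y1 hboth.1 y2 hboth.2, ?_⟩
  have hax : a = x2 := by
    rw [← hb2] at hab
    rcases k1 a ha with h | h
    · exfalso
      rw [h] at hab
      exact h4.1 y1 hboth.1 y2 hboth.2 hab
    · by_contra hne'
      exact h2.1 a (m2 a h.2 hne') y2 hy2S hab
  rw [e4, ← hb2, hax]

theorem no_seed (hG : WellCovered G) (e : iGraph G ≃g cubeMinus) : False := by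
  have hS : ∀ k, IsIndepDom G (e.symm k).1 := fun k => (e.symm k).2.1
  have hadj : ∀ i j, cubeMinus.Adj i j → Slide G (e.symm i).1 (e.symm j).1 := by
    intro i j h
    exact e.symm.map_adj_iff.2 h
  have hnadj : ∀ i j, ¬ cubeMinus.Adj i j → ¬ Slide G (e.symm i).1 (e.symm j).1 := by
    intro i j h h'
    exact h (e.symm.map_adj_iff.1 (show (iGraph G).Adj (e.symm i) (e.symm j) from h'))
  have hne : ∀ i j, i ≠ j → (e.symm i).1 ≠ (e.symm j).1 := by
    intro i j h h'
    exact h (e.symm.injective (Subtype.ext h'))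
  obtain ⟨x1, hx1, y1, hy1, ha1, e1⟩ := hadj 0 1 (by decide)
  obtain ⟨x2, hx2, y2, hy2, ha2, e2⟩ := hadj 0 2 (by decide)
  obtain ⟨x3, hx3, y3, hy3, ha3, e3⟩ := hadj 0 3 (by decide)
  obtain ⟨c12, d12, n12, e12⟩ := square G hG (hS 0) (hS 1) (hS 2) (hS 4) hx1 hx2 ha1 ha2 e1 e2
    (hne 1 2 (by decide)) (hnadj 1 2 (by decide)) (hadj 1 4 (by decide)) (hadj 2 4 (by decide))
    (hne 4 0 (by decide))
  obtain ⟨c13, d13, n13, e13⟩ := square G hG (hS 0) (hS 1) (hS 3) (hS 5) hx1 hx3 ha1 ha3 e1 e3
    (hne 1 3 (by decide)) (hnadj 1 3 (by decide)) (hadj 1 5 (by decide)) (hadj 3 5 (by decide))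
    (hne 5 0 (by decide))
  obtain ⟨c23, d23, n23, e23⟩ := square G hG (hS 0) (hS 2) (hS 3) (hS 6) hx2 hx3 ha2 ha3 e2 e3
    (hne 2 3 (by decide)) (hnadj 2 3 (by decide)) (hadj 2 6 (by decide)) (hadj 3 6 (by decide))
    (hne 6 0 (by decide))
  set S0 := (e.symm 0).1 with hS0
  have i0 := (hS 0).1
  have i1 := (hS 1).1
  have i2 := (hS 2).1
  have i3 := (hS 3).1
  have f1 : y1 ∉ S0 := fun h => i0 x1 hx1 y1 h ha1
  have f2 : y2 ∉ S0 := fun h => i0 x2 hx2 y2 h ha2
  have f3 : y3 ∉ S0 := fun h => i0 x3 hx3 y3 h ha3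
  -- the missing vertex
  let B : Finset V := ((S0.erase x1).erase x2).erase x3
  let U : Finset V := insert y1 (insert y2 (insert y3 B))
  have hB : ∀ t, t ∈ B ↔ t ≠ x3 ∧ t ≠ x2 ∧ t ≠ x1 ∧ t ∈ S0 := by
    intro t
    simp only [B, Finset.mem_erase]
  have hy1B : ∀ t ∈ B, ¬ G.Adj y1 t := by
    intro t ht h
    have ht' := (hB t).1 ht
    exact i1 y1 hy1 t (by rw [e1]; exact Finset.mem_insert_of_mem (Finset.mem_erase.2
      ⟨ht'.2.2.1, ht'.2.2.2⟩)) h
  have hy2B : ∀ t ∈ B, ¬ G.Adj y2 t := by
    intro t ht h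
    have ht' := (hB t).1 ht
    exact i2 y2 hy2 t (by rw [e2]; exact Finset.mem_insert_of_mem (Finset.mem_erase.2
      ⟨ht'.2.1, ht'.2.2.2⟩)) h
  have hy3B : ∀ t ∈ B, ¬ G.Adj y3 t := by
    intro t ht h
    have ht' := (hB t).1 ht
    exact i3 y3 hy3 t (by rw [e3]; exact Finset.mem_insert_of_mem (Finset.mem_erase.2
      ⟨ht'.1, ht'.2.2.2⟩)) h
  have hU : ∀ a ∈ U, ∀ b ∈ U, ¬ G.Adj a b := by
    intro a ha b hb hab
    simp only [U, Finset.mem_insert] at ha hb
    rcases ha with rfl | rfl | rfl | ha <;> rcases hb with rfl | rfl | rfl | hb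
    · exact G.loopless.irrefl _ hab
    · exact n12 hab
    · exact n13 hab
    · exact hy1B b hb hab
    · exact n12 hab.symm
    · exact G.loopless.irrefl _ hab
    · exact n23 hab
    · exact hy2B b hb hab
    · exact n13 hab.symm
    · exact n23 hab.symm
    · exact G.loopless.irrefl _ hab
    · exact hy3B b hb hab
    · exact hy1B a ha hab.symm
    · exact hy2B a ha hab.symm
    · exact hy3B a ha hab.symm
    · exact i0 a ((hB a).1 ha).2.2.2 b ((hB b).1 hb).2.2.2 hab
  have hcard : U.card = S0.card := by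
    have g3 : y3 ∉ B := fun h => f3 ((hB y3).1 h).2.2.2
    have g2 : y2 ∉ insert y3 B := by
      rw [Finset.mem_insert]
      rintro (h | h)
      · exact d23 h
      · exact f2 ((hB y2).1 h).2.2.2
    have g1 : y1 ∉ insert y2 (insert y3 B) := by
      rw [Finset.mem_insert, Finset.mem_insert]
      rintro (h | h | h)
      · exact d12 h
      · exact d13 h
      · exact f1 ((hB y1).1 h).2.2.2
    have k1 : (S0.erase x1).card = S0.card - 1 := Finset.card_erase_of_mem hx1
    have k2 : ((S0.erase x1).erase x2).card = (S0.erase x1).card - 1 :=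
      Finset.card_erase_of_mem (Finset.mem_erase.2 ⟨c12.symm, hx2⟩)
    have k3 : B.card = ((S0.erase x1).erase x2).card - 1 :=
      Finset.card_erase_of_mem (Finset.mem_erase.2 ⟨c23.symm, Finset.mem_erase.2 ⟨c13.symm, hx3⟩⟩)
    have k4 : 3 ≤ S0.card := by
      have hsub : ({x1, x2, x3} : Finset V) ⊆ S0 := by
        intro t ht
        simp only [Finset.mem_insert, Finset.mem_singleton] at ht
        rcases ht with rfl | rfl | rfl
        · exact hx1
        · exact hx2
        · exact hx3
      have hc3 : ({x1, x2, x3} : Finset V).card = 3 := by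
        rw [Finset.card_eq_three]
        exact ⟨x1, x2, x3, c12, c13, c23, rfl⟩
      rw [← hc3]
      exact Finset.card_le_card hsub
    have k5 : U.card = B.card + 3 := by
      show (insert y1 (insert y2 (insert y3 B))).card = _
      rw [Finset.card_insert_of_notMem g1, Finset.card_insert_of_notMem g2,
        Finset.card_insert_of_notMem g3]
    omega
  have hUi : IsISet G U := iset_of_card G hG (hS 0) hU hcard
  -- `U` is a common neighbour of the vertices `4, 5, 6`
  have hy1x : ∀ x ∈ S0, y1 ≠ x := fun x hx h => f1 (h ▸ hx)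
  have hy2x : ∀ x ∈ S0, y2 ≠ x := fun x hx h => f2 (h ▸ hx)
  have hy3x : ∀ x ∈ S0, y3 ≠ x := fun x hx h => f3 (h ▸ hx)
  have t4 : Slide G (e.symm 4).1 U := by
    refine ⟨x3, ?_, y3, ?_, ha3, ?_⟩
    · rw [e12, e1]
      simp only [Finset.mem_insert, Finset.mem_erase]
      exact Or.inr ⟨c23.symm, Or.inr ⟨c13.symm, hx3⟩⟩
    · simp [U]
    · rw [e12, e1]
      ext t
      simp only [U, hB, Finset.mem_insert, Finset.mem_erase]
      have := hy1x x3 hx3
      have := hy1x x2 hx2
      have := hy2x x3 hx3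
      constructor
      · rintro (rfl | rfl | rfl | h)
        · tauto
        · tauto
        · tauto
        · tauto
      · tauto
  have t5 : Slide G (e.symm 5).1 U := by
    refine ⟨x2, ?_, y2, ?_, ha2, ?_⟩
    · rw [e13, e1]
      simp only [Finset.mem_insert, Finset.mem_erase]
      exact Or.inr ⟨c23, Or.inr ⟨c12.symm, hx2⟩⟩
    · simp [U]
    · rw [e13, e1]
      ext t
      simp only [U, hB, Finset.mem_insert, Finset.mem_erase]
      have := hy1x x3 hx3
      have := hy1x x2 hx2
      have := hy3x x2 hx2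
      constructor
      · rintro (rfl | rfl | rfl | h)
        · tauto
        · tauto
        · tauto
        · tauto
      · tauto
  have t6 : Slide G (e.symm 6).1 U := by
    refine ⟨x1, ?_, y1, ?_, ha1, ?_⟩
    · rw [e23, e2]
      simp only [Finset.mem_insert, Finset.mem_erase]
      exact Or.inr ⟨c13, Or.inr ⟨c12, hx1⟩⟩
    · simp [U]
    · rw [e23, e2]
      ext t
      simp only [U, hB, Finset.mem_insert, Finset.mem_erase]
      have := hy2x x3 hx3
      have := hy2x x1 hx1
      have := hy3x x1 hx1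
      constructor
      · rintro (rfl | rfl | rfl | h)
        · tauto
        · tauto
        · tauto
        · tauto
      · tauto
  have fin : ∀ k : Fin 7, ¬ (cubeMinus.Adj 4 k ∧ cubeMinus.Adj 5 k ∧ cubeMinus.Adj 6 k) := by
    decide
  refine fin (e ⟨U, hUi⟩) ⟨?_, ?_, ?_⟩
  · have h : (iGraph G).Adj (e.symm 4) ⟨U, hUi⟩ := t4
    have := e.map_adj_iff.2 h
    rwa [RelIso.apply_symm_apply] at this
  · have h : (iGraph G).Adj (e.symm 5) ⟨U, hUi⟩ := t5
    have := e.map_adj_iff.2 h
    rwa [RelIso.apply_symm_apply] at this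
  · have h : (iGraph G).Adj (e.symm 6) ⟨U, hUi⟩ := t6
    have := e.map_adj_iff.2 h
    rwa [RelIso.apply_symm_apply] at this

end Upper

section Seed

/-- The seven `i`-sets of the subdivided claw. -/
def fam : Fin 7 → Finset (Fin 7) :=
  ![{1, 2, 3}, {4, 2, 3}, {1, 5, 3}, {1, 2, 6}, {4, 5, 3}, {4, 2, 6}, {1, 5, 6}]

instance (S : Finset (Fin 7)) : Decidable (IsIndepDom subdividedClaw S) := by
  unfold IsIndepDom; infer_instance

set_option maxRecDepth 100000 in
theorem class_of : ∀ S : Finset (Fin 7), IsIndepDom subdividedClaw S →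
    S = {0, 4, 5, 6} ∨ ∃ k, fam k = S := by
  decide

theorem fam_indep : ∀ k, IsIndepDom subdividedClaw (fam k) := by decide

theorem fam_card : ∀ k, (fam k).card = 3 := by decide

theorem fam_iset (k : Fin 7) : IsISet subdividedClaw (fam k) := by
  refine ⟨fam_indep k, fun T hT => ?_⟩
  rw [fam_card]
  rcases class_of T hT with rfl | ⟨j, rfl⟩
  · decide
  · rw [fam_card]

theorem fam_inj : Function.Injective fam := by decide

theorem fam_surj (S : Finset (Fin 7)) (hS : IsISet subdividedClaw S) : ∃ k, fam k = S := by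
  rcases class_of S hS.1 with rfl | h
  · exfalso
    have := hS.2 (fam 0) (fam_indep 0)
    rw [fam_card] at this
    revert this
    decide
  · exact h

/-- The `i`-sets of the subdivided claw, numbered. -/
noncomputable def famEquiv : Fin 7 ≃ {S : Finset (Fin 7) // IsISet subdividedClaw S} :=
  Equiv.ofBijective (fun k => ⟨fam k, fam_iset k⟩)
    ⟨fun i j h => fam_inj (congrArg Subtype.val h), fun S => by
      obtain ⟨k, hk⟩ := fam_surj S.1 S.2
      exact ⟨k, Subtype.ext hk⟩⟩

theorem fam_adj : ∀ i j : Fin 7,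
    (∃ u ∈ fam i, ∃ v ∈ fam j, subdividedClaw.Adj u v ∧ fam j = insert v ((fam i).erase u)) ↔
      cubeMinus.Adj i j := by
  decide

/-- `Q₃` minus a vertex is the `i`-graph of the subdivided claw. -/
noncomputable def seedIso : iGraph subdividedClaw ≃g cubeMinus :=
  RelIso.symm { toEquiv := famEquiv, map_rel_iff' := fun {i j} => fam_adj i j }

end Seed

/-- **Answer to Q1 (negative).** There is a finite graph `H` (the cube graph minus a vertex) which is
the `i`-graph of a finite graph but not of any well-covered finite graph. -/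
theorem result : ∃ (n : ℕ) (H : SimpleGraph (Fin n)),
    (∃ (m : ℕ) (G : SimpleGraph (Fin m)), Nonempty (iGraph G ≃g H)) ∧
    ∀ (V : Type) [Fintype V] [DecidableEq V] (G : SimpleGraph V), WellCovered G →
      IsEmpty (iGraph G ≃g H) :=
  ⟨7, cubeMinus, ⟨7, subdividedClaw, ⟨seedIso⟩⟩, fun V _ _ G hG => ⟨fun e => no_seed G hG e⟩⟩

end Pool.Agent.Results.MP_88e7bb_co.CubeMinusVertex
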